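import Pool.Agent.Helper21.LR.Final

open MvPolynomial Pool.Agent.Helper21.LR

namespace Pool.Agent.Results.MP_6358c9_nt.LaurentRoy

/-- For every `m ≥ 1` and `θ ∈ ℂ^m` there is `c > 0` such that for every `k ∈ {0, …, m-1}` there
are infinitely many `T ≥ 1` for which there are an algebraic set `Z ⊆ ℂ^m` defined over `ℚ`, pure
of dimension `k`, with a Chow form `F` of size at most `T^(m-k)`, and a point `α ∈ Z` with
`|θ - α| ≤ exp (-c T^(m+1))`. -/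
theorem result (m : ℕ) (hm : 1 ≤ m) (θ : Fin m → ℂ) : ∃ c : ℝ, 0 < c ∧ ∀ k < m,
    {T : ℕ | 1 ≤ T ∧ ∃ (Z : Set (Fin m → ℂ)) (F : MvPolynomial (Fin (k+1) × Fin (m+1)) ℤ)
      (α : Fin m → ℂ), DefOverQ Z ∧ PureDim Z k ∧ IsChowForm Z k F ∧
        size F ≤ (T : ℝ) ^ (m - k) ∧ α ∈ Z ∧
        ‖θ - α‖ ≤ Real.exp (-(c * (T : ℝ) ^ (m + 1)))}.Infinite :=
  laurentRoy m hm θ

end Pool.Agent.Results.MP_6358c9_nt.LaurentRoy
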